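import Mathlib

/-!
# Reflected windows and time-frequency shifts
-/

set_option autoImplicit false

namespace Pool.Agent.R228.GP

open MeasureTheory Complex ComplexConjugate

/-- The short-time Fourier transform of `f` with window `g`. -/
noncomputable def stft (g f : ℝ → ℂ) (x ω : ℝ) : ℂ :=
  ∫ t : ℝ, f t * conj (g (t - x)) * Complex.exp (-(2 * Real.pi * Complex.I * ω * t))

/-- The lattice generated by a real matrix. -/
def lattice (A : Matrix (Fin 2) (Fin 2) ℝ) : Set (ℝ × ℝ) :=
  {p | ∃ n m : ℤ, p.1 = A 0 0 * n + A 0 1 * m ∧ p.2 = A 1 0 * n + A 1 1 * m}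

/-- The pair `(g, Λ)` has the phase retrieval uniqueness property. -/
def Uniqueness (g : ℝ → ℂ) (Λ : Set (ℝ × ℝ)) : Prop :=
  ∀ f h : ℝ → ℂ, MemLp f 2 volume → MemLp h 2 volume →
    (∀ p ∈ Λ, ‖stft g f p.1 p.2‖ = ‖stft g h p.1 p.2‖) →
    ∃ α : ℝ, f =ᵐ[volume] fun t => Complex.exp (α * Complex.I) * h t

/-- The time-frequency shift. -/
noncomputable def T (a b : ℝ) : (ℝ → ℂ) →ₗ[ℂ] (ℝ → ℂ) where
  toFun ψ := fun t => Complex.exp ((2 * Real.pi * b * t - Real.pi * a * b) * Complex.I) * ψ (t - a)
  map_add' ψ χ := by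
    funext t
    simp only [Pi.add_apply]
    ring
  map_smul' c ψ := by
    funext t
    simp only [Pi.smul_apply, smul_eq_mul, RingHom.id_apply]
    ring

theorem T_apply (a b : ℝ) (ψ : ℝ → ℂ) (t : ℝ) :
    T a b ψ t = Complex.exp ((2 * Real.pi * b * t - Real.pi * a * b) * Complex.I) * ψ (t - a) :=
  rfl

/-- Iterated shifts of the reflected window. -/
noncomputable def phi (g : ℝ → ℂ) (a b : ℝ) (k : ℕ) (t : ℝ) : ℂ :=
  Complex.exp ((2 * Real.pi * k * b * t - Real.pi * k ^ 2 * a * b) * Complex.I) * g (k * a - t)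

theorem T_phi (g : ℝ → ℂ) (a b : ℝ) (k : ℕ) : T a b (phi g a b k) = phi g a b (k + 1) := by
  funext t
  rw [T_apply]
  unfold phi
  rw [← mul_assoc, ← Complex.exp_add]
  congr 1
  · congr 1
    push_cast
    ring
  · congr 1
    push_cast
    ring

theorem T_pow_phi (g : ℝ → ℂ) (a b : ℝ) (k : ℕ) :
    ((T a b) ^ k) (phi g a b 0) = phi g a b k := by
  induction k with
  | zero => simp
  | succ k ih => rw [pow_succ', Module.End.mul_apply, ih, T_phi]

theorem memLp_exp_mul {ψ : ℝ → ℂ} (hψ : MemLp ψ 2 volume) {u : ℝ → ℝ} (hu : Continuous u) :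
    MemLp (fun t => Complex.exp ((u t : ℂ) * Complex.I) * ψ t) 2 volume := by
  have hc : Continuous fun t : ℝ => Complex.exp ((u t : ℂ) * Complex.I) := by fun_prop
  refine hψ.of_le (hc.aestronglyMeasurable.mul hψ.aestronglyMeasurable)
    (Filter.Eventually.of_forall fun t => ?_)
  rw [norm_mul, Complex.norm_exp_ofReal_mul_I, one_mul]

theorem memLp_T {ψ : ℝ → ℂ} (hψ : MemLp ψ 2 volume) (a b : ℝ) : MemLp (T a b ψ) 2 volume := by
  have h1 : MemLp (fun t => ψ (t - a)) 2 volume :=
    hψ.comp_measurePreserving (measurePreserving_sub_right volume a)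
  have h2 := memLp_exp_mul h1 (u := fun t => 2 * Real.pi * b * t - Real.pi * a * b) (by fun_prop)
  refine h2.ae_eq (Filter.Eventually.of_forall fun t => ?_)
  rw [T_apply]
  push_cast
  rfl

theorem memLp_phi {g : ℝ → ℂ} (hg : MemLp g 2 volume) (a b : ℝ) (k : ℕ) :
    MemLp (phi g a b k) 2 volume := by
  have h1 : MemLp (fun t => g (k * a - t)) 2 volume :=
    hg.comp_measurePreserving (Measure.measurePreserving_sub_left volume _)
  have h2 := memLp_exp_mul h1 (u := fun t => 2 * Real.pi * k * b * t - Real.pi * k ^ 2 * a * b)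
    (by fun_prop)
  refine h2.ae_eq (Filter.Eventually.of_forall fun t => ?_)
  unfold phi
  push_cast
  rfl

/-- The integrand of the short-time Fourier transform is integrable. -/
theorem stft_integrable {g f : ℝ → ℂ} (hg : MemLp g 2 volume) (hf : MemLp f 2 volume) (x ω : ℝ) :
    Integrable (fun t : ℝ => f t * conj (g (t - x)) *
      Complex.exp (-(2 * Real.pi * Complex.I * ω * t))) volume := by
  have h1 : MemLp (fun t => g (t - x)) 2 volume :=
    hg.comp_measurePreserving (measurePreserving_sub_right volume x)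
  have h2 : MemLp (fun t => conj (g (t - x))) 2 volume := h1.star
  have h3 : Integrable (fun t => f t * conj (g (t - x))) volume := hf.integrable_mul h2
  have hc : Continuous fun t : ℝ => Complex.exp (-(2 * Real.pi * Complex.I * ω * t)) := by fun_prop
  refine h3.mono (h3.aestronglyMeasurable.mul hc.aestronglyMeasurable)
    (Filter.Eventually.of_forall fun t => ?_)
  rw [norm_mul]
  have : ‖Complex.exp (-(2 * Real.pi * Complex.I * ω * t))‖ = 1 := by
    have e : -(2 * Real.pi * Complex.I * ω * t) = ((-(2 * Real.pi * ω * t) : ℝ) : ℂ) * Complex.I := by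
      push_cast
      ring
    rw [e, Complex.norm_exp_ofReal_mul_I]
  rw [this, mul_one]

/-- Linearity of the transform. -/
theorem stft_sum {g : ℝ → ℂ} (hg : MemLp g 2 volume) {n : ℕ} (c : Fin n → ℂ) (F : Fin n → ℝ → ℂ)
    (hF : ∀ k, MemLp (F k) 2 volume) (x ω : ℝ) :
    stft g (fun t => ∑ k, c k * F k t) x ω = ∑ k, c k * stft g (F k) x ω := by
  unfold stft
  have h1 : ∀ t : ℝ, (∑ k, c k * F k t) * conj (g (t - x)) *
      Complex.exp (-(2 * Real.pi * Complex.I * ω * t)) =
      ∑ k, c k * (F k t * conj (g (t - x)) *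
        Complex.exp (-(2 * Real.pi * Complex.I * ω * t))) := by
    intro t
    rw [Finset.sum_mul, Finset.sum_mul]
    exact Finset.sum_congr rfl fun k _ => by ring
  simp only [h1]
  rw [integral_finsetSum _ fun k _ => (stft_integrable hg (hF k) x ω).const_mul _]
  exact Finset.sum_congr rfl fun k _ => integral_const_mul _ _

theorem stft_add {g : ℝ → ℂ} (hg : MemLp g 2 volume) {f h : ℝ → ℂ} (hf : MemLp f 2 volume)
    (hh : MemLp h 2 volume) (c : ℂ) (x ω : ℝ) :
    stft g (fun t => f t + c * h t) x ω = stft g f x ω + c * stft g h x ω := by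
  unfold stft
  have h1 : ∀ t : ℝ, (f t + c * h t) * conj (g (t - x)) *
      Complex.exp (-(2 * Real.pi * Complex.I * ω * t)) =
      f t * conj (g (t - x)) * Complex.exp (-(2 * Real.pi * Complex.I * ω * t)) +
      c * (h t * conj (g (t - x)) *
        Complex.exp (-(2 * Real.pi * Complex.I * ω * t))) := by
    intro t
    ring
  simp only [h1]
  rw [integral_add (stft_integrable hg hf x ω) ((stft_integrable hg hh x ω).const_mul _),
    integral_const_mul]

/-- The key reality property. -/
theorem stft_phi_real (g : ℝ → ℂ) (a b : ℝ) (k : ℕ) (x ω : ℝ) (n : ℤ)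
    (hn : ω * a - b * x = n) :
    conj (Complex.exp ((Real.pi * x * ω : ℝ) * Complex.I) * stft g (phi g a b k) x ω) =
      Complex.exp ((Real.pi * x * ω : ℝ) * Complex.I) * stft g (phi g a b k) x ω := by
  unfold stft
  rw [map_mul, ← integral_conj, ← integral_const_mul, ← integral_const_mul]
  rw [← integral_sub_left_eq_self _ volume (x + k * a)]
  refine integral_congr_ae (Filter.Eventually.of_forall fun t => ?_)
  simp only [phi]
  rw [show k * a - (x + k * a - t) = t - x by ring, show x + k * a - t - x = k * a - t by ring]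
  simp only [map_mul, Complex.conj_conj, ← Complex.exp_conj, Complex.conj_I, map_neg,
    Complex.conj_ofReal, map_sub, map_natCast, map_pow, map_ofNat]
  have key : Complex.exp (((Real.pi * x * ω : ℝ) : ℂ) * -Complex.I) *
      (Complex.exp ((2 * Real.pi * k * b * ((x + k * a - t : ℝ) : ℂ) - Real.pi * k ^ 2 * a * b) *
        -Complex.I) *
      Complex.exp (-(2 * Real.pi * -Complex.I * ω * ((x + k * a - t : ℝ) : ℂ)))) =
      Complex.exp (((Real.pi * x * ω : ℝ) : ℂ) * Complex.I) *
      (Complex.exp ((2 * Real.pi * k * b * t - Real.pi * k ^ 2 * a * b) * Complex.I) *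
      Complex.exp (-(2 * Real.pi * Complex.I * ω * t))) := by
    rw [← Complex.exp_add, ← Complex.exp_add, ← Complex.exp_add, ← Complex.exp_add]
    rw [Complex.exp_eq_exp_iff_exists_int]
    refine ⟨k * n, ?_⟩
    have hn' : (ω : ℂ) * a - b * x = n := by
      rw [← Complex.ofReal_mul, ← Complex.ofReal_mul, ← Complex.ofReal_sub, hn]
      simp
    push_cast
    rw [← hn']
    ring
  linear_combination (conj (g (t - x)) * g (k * a - t)) * key

end Pool.Agent.R228.GP
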