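import Pool.Agent.R228.GP.Basic

/-!
# A lattice plus finitely many points is never a uniqueness set
-/

set_option autoImplicit false

namespace Pool.Agent.R228.GP

open MeasureTheory Complex ComplexConjugate Polynomial

/-- An integrable periodic function vanishes. -/
theorem periodic_zero_pos {u : ℝ → ℝ} (hu : Integrable u volume) (h0 : ∀ t, 0 ≤ u t) {p : ℝ}
    (hp : 0 < p) (hper : ∀ᵐ t : ℝ, u (t + p) = u t) : u =ᵐ[volume] 0 := by
  set f : ℤ → ℝ := fun n => ∫ t in (n • p)..((n + 1) • p), u t with hf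
  have hstep : ∀ n, f (n + 1) = f n := by
    intro n
    simp only [hf]
    have e1 : (n + 1) • p = n • p + p := by rw [add_smul, one_smul]
    have e2 : (n + 1 + 1) • p = (n + 1) • p + p := by rw [add_smul (n + 1), one_smul]
    rw [e2]
    nth_rewrite 1 [e1]
    rw [← intervalIntegral.integral_comp_add_right u p]
    apply intervalIntegral.integral_congr_ae
    filter_upwards [hper] with t ht _
    exact ht
  have hconst : ∀ n, f n = f 0 := by
    intro n
    induction n using Int.induction_on with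
    | zero => rfl
    | succ n ih => rw [hstep, ih]
    | pred n ih =>
      rw [← ih]
      have := hstep (-(n : ℤ) - 1)
      rw [show -(n : ℤ) - 1 + 1 = -(n : ℤ) by ring] at this
      exact this.symm
  have hsum := hasSum_integral_iUnion (f := u) (μ := volume)
    (s := fun n : ℤ => Set.Ioc (n • p) ((n + 1) • p)) (fun _ => measurableSet_Ioc)
    (Set.pairwise_disjoint_Ioc_zsmul p) hu.integrableOn
  rw [iUnion_Ioc_zsmul hp, setIntegral_univ] at hsum
  have hf' : (fun n : ℤ => ∫ t in Set.Ioc (n • p) ((n + 1) • p), u t) = fun _ => f 0 := by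
    funext n
    rw [← hconst n]
    simp only [hf]
    rw [intervalIntegral.integral_of_le]
    rw [add_smul, one_smul]
    linarith
  rw [hf'] at hsum
  have hz : f 0 = 0 := (summable_const_iff _).1 hsum.summable
  rw [hz] at hsum
  have hI : ∫ t, u t = 0 := hsum.unique hasSum_zero
  exact (integral_eq_zero_iff_of_nonneg h0 hu).1 hI

theorem periodic_zero {u : ℝ → ℝ} (hu : Integrable u volume) (h0 : ∀ t, 0 ≤ u t) {a : ℝ}
    (ha : a ≠ 0) (hper : ∀ᵐ t : ℝ, u (t - a) = u t) : u =ᵐ[volume] 0 := by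
  rcases lt_or_gt_of_ne ha with h | h
  · refine periodic_zero_pos hu h0 (neg_pos.2 h) ?_
    filter_upwards [hper] with t ht
    rw [← ht]
    congr 1
  · refine periodic_zero_pos hu h0 h ?_
    have hq := (measurePreserving_add_right volume a).quasiMeasurePreserving.ae hper
    filter_upwards [hq] with t ht
    rw [add_sub_cancel_right] at ht
    exact ht.symm

/-- The shift has no eigenfunction. -/
theorem no_eigen {ψ : ℝ → ℂ} (hψ : MemLp ψ 2 volume) {a b : ℝ} (ha : a ≠ 0) (r : ℂ)
    (h : T a b ψ =ᵐ[volume] r • ψ) : ψ =ᵐ[volume] 0 := by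
  have hu : Integrable (fun t => ‖ψ t‖ ^ 2) volume :=
    (memLp_two_iff_integrable_sq_norm hψ.aestronglyMeasurable).1 hψ
  have h1 : ∀ᵐ t : ℝ, ‖ψ (t - a)‖ ^ 2 = ‖r‖ ^ 2 * ‖ψ t‖ ^ 2 := by
    filter_upwards [h] with t ht
    have h2 := congrArg norm ht
    rw [T_apply, Pi.smul_apply, smul_eq_mul, norm_mul, norm_mul] at h2
    have h3 : ‖Complex.exp ((2 * Real.pi * b * t - Real.pi * a * b) * Complex.I)‖ = 1 := by
      have e : (2 * Real.pi * b * t - Real.pi * a * b : ℂ) =
          ((2 * Real.pi * b * t - Real.pi * a * b : ℝ) : ℂ) := by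
        push_cast
        ring
      rw [e, Complex.norm_exp_ofReal_mul_I]
    rw [h3, one_mul] at h2
    rw [h2, mul_pow]
  have h4 : ∫ t, ‖ψ (t - a)‖ ^ 2 = ∫ t, ‖ψ t‖ ^ 2 :=
    integral_sub_right_eq_self (fun t => ‖ψ t‖ ^ 2) a
  have h5 : ∫ t, ‖ψ (t - a)‖ ^ 2 = ‖r‖ ^ 2 * ∫ t, ‖ψ t‖ ^ 2 := by
    rw [← integral_const_mul]
    exact integral_congr_ae h1
  have hz : (fun t => ‖ψ t‖ ^ 2) =ᵐ[volume] 0 := by
    by_cases hI : ∫ t, ‖ψ t‖ ^ 2 = 0
    · exact (integral_eq_zero_iff_of_nonneg (fun t => by positivity) hu).1 hI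
    · have h6 : ‖r‖ ^ 2 = 1 := by
        rw [h4] at h5
        exact (mul_right_cancel₀ hI (by rw [one_mul]; exact h5)).symm
      refine periodic_zero hu (fun t => by positivity) ha ?_
      filter_upwards [h1] with t ht
      rw [ht, h6, one_mul]
  filter_upwards [hz] with t ht
  simpa using ht

theorem memLp_aeval {ψ : ℝ → ℂ} (hψ : MemLp ψ 2 volume) (a b : ℝ) (q : ℂ[X]) :
    MemLp (aeval (T a b) q ψ) 2 volume := by
  induction q using Polynomial.induction_on with
  | C c =>
    rw [aeval_C]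
    exact hψ.const_smul c
  | add p q hp hq =>
    rw [map_add, LinearMap.add_apply]
    exact hp.add hq
  | monomial n c ih =>
    have e : (C c * X ^ (n + 1) : ℂ[X]) = X * (C c * X ^ n) := by ring
    rw [e, map_mul, aeval_X, Module.End.mul_apply]
    exact memLp_T ih a b

/-- Polynomials in the shift are injective. -/
theorem aeval_inj {a b : ℝ} (ha : a ≠ 0) (n : ℕ) : ∀ q : ℂ[X], q.natDegree ≤ n → q ≠ 0 →
    ∀ ψ : ℝ → ℂ, MemLp ψ 2 volume → aeval (T a b) q ψ =ᵐ[volume] 0 → ψ =ᵐ[volume] 0 := by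
  have hconst : ∀ q : ℂ[X], q.natDegree = 0 → q ≠ 0 →
      ∀ ψ : ℝ → ℂ, MemLp ψ 2 volume → aeval (T a b) q ψ =ᵐ[volume] 0 → ψ =ᵐ[volume] 0 := by
    intro q hq hq0 ψ _ h
    rw [Polynomial.eq_C_of_natDegree_eq_zero hq, aeval_C] at h
    have hc : q.coeff 0 ≠ 0 := by
      intro h0
      apply hq0
      rw [Polynomial.eq_C_of_natDegree_eq_zero hq, h0, C_0]
    filter_upwards [h] with t ht
    have h1 : q.coeff 0 * ψ t = 0 := ht
    exact (mul_eq_zero.1 h1).resolve_left hc
  induction n with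
  | zero =>
    intro q hq hq0
    exact hconst q (Nat.le_zero.1 hq) hq0
  | succ n ih =>
    intro q hq hq0 ψ hψ h
    by_cases hd : q.natDegree = 0
    · exact hconst q hd hq0 ψ hψ h
    · have hdeg : q.degree ≠ 0 := by
        intro h0
        exact hd (Polynomial.natDegree_eq_of_degree_eq_some h0)
      obtain ⟨r, hr⟩ := IsAlgClosed.exists_root q hdeg
      obtain ⟨q', hq'⟩ := Polynomial.dvd_iff_isRoot.2 hr
      have hq'0 : q' ≠ 0 := by
        intro h0
        apply hq0
        rw [hq', h0, mul_zero]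
      have hq'd : q'.natDegree ≤ n := by
        have h1 := congrArg Polynomial.natDegree hq'
        rw [Polynomial.natDegree_mul (Polynomial.X_sub_C_ne_zero r) hq'0,
          Polynomial.natDegree_X_sub_C] at h1
        omega
      refine ih q' hq'd hq'0 ψ hψ ?_
      refine no_eigen (b := b) (memLp_aeval hψ a b q') ha r ?_
      rw [hq', map_mul, Module.End.mul_apply, map_sub, aeval_X, aeval_C,
        LinearMap.sub_apply] at h
      filter_upwards [h] with t ht
      have h1 : T a b (aeval (T a b) q' ψ) t - (r • aeval (T a b) q' ψ) t = 0 := ht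
      exact sub_eq_zero.1 h1

/-- A nonzero vector in the kernel of few functionals. -/
theorem exists_kernel {ι : Type*} [Fintype ι] (B : Fin (2 * Fintype.card ι + 1) → ι → ℂ) :
    ∃ v : Fin (2 * Fintype.card ι + 1) → ℝ, v ≠ 0 ∧ ∀ i, ∑ k, (v k : ℂ) * B k i = 0 := by
  classical
  set E : (Fin (2 * Fintype.card ι + 1) → ℝ) →ₗ[ℝ] (ι → ℂ) :=
    { toFun := fun v i => ∑ k, (v k : ℂ) * B k i
      map_add' := by
        intro v w
        funext i
        simp only [Pi.add_apply, Complex.ofReal_add, add_mul, Finset.sum_add_distrib]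
      map_smul' := by
        intro c v
        funext i
        simp only [Pi.smul_apply, smul_eq_mul, Complex.ofReal_mul, RingHom.id_apply,
          Complex.real_smul, Finset.mul_sum, mul_assoc] } with hE
  have hlt : Module.finrank ℝ (ι → ℂ) < Module.finrank ℝ (Fin (2 * Fintype.card ι + 1) → ℝ) := by
    rw [Module.finrank_pi_fintype, Module.finrank_fin_fun]
    simp only [Complex.finrank_real_complex, Finset.sum_const, Finset.card_univ, smul_eq_mul]
    omega
  have hker := LinearMap.ker_ne_bot_of_finrank_lt (f := E) hlt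
  obtain ⟨v, hv, hv0⟩ := (Submodule.ne_bot_iff _).1 hker
  refine ⟨v, hv0, fun i => ?_⟩
  have := congrFun (LinearMap.mem_ker.1 hv) i
  exact this

theorem main {g : ℝ → ℂ} (hg : MemLp g 2 volume) {A : Matrix (Fin 2) (Fin 2) ℝ} (hA : A.det ≠ 0)
    {P : Set (ℝ × ℝ)} (hP : P.Finite) : ¬ Uniqueness g (lattice A ∪ P) := by
  classical
  intro huniq
  by_cases hg0 : g =ᵐ[volume] 0
  · -- the zero window
    set f : ℝ → ℂ := Set.indicator (Set.Icc (0 : ℝ) 1) fun _ => 1 with hf
    have hfm : MemLp f 2 volume := memLp_indicator_const 2 measurableSet_Icc 1 (Or.inr (by simp))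
    have hs : ∀ (F : ℝ → ℂ) (x ω : ℝ), stft g F x ω = 0 := by
      intro F x ω
      unfold stft
      have h1 : ∀ᵐ t : ℝ, g (t - x) = 0 :=
        (measurePreserving_sub_right volume x).quasiMeasurePreserving.ae hg0
      rw [← integral_zero ℝ ℂ]
      refine integral_congr_ae ?_
      filter_upwards [h1] with t ht
      rw [ht]
      simp
    obtain ⟨α, hα⟩ := huniq f 0 hfm MemLp.zero (fun p _ => by rw [hs, hs])
    have h2 : f =ᵐ[volume] 0 := by
      filter_upwards [hα] with t ht
      rw [ht]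
      simp
    have h3 : volume (Set.Icc (0 : ℝ) 1) = 0 := by
      have h4 : Set.Icc (0 : ℝ) 1 ⊆ {t | ¬ f t = (0 : ℝ → ℂ) t} := by
        intro t ht
        simpa [hf] using ht
      exact measure_mono_null h4 (ae_iff.1 h2)
    simp at h3
  -- the adjoint lattice vector
  obtain ⟨a, b, ha, hab⟩ : ∃ a b : ℝ, a ≠ 0 ∧ ∀ p ∈ lattice A, ∃ n : ℤ, p.2 * a - b * p.1 = n := by
    rw [Matrix.det_fin_two] at hA
    set D := A 0 0 * A 1 1 - A 0 1 * A 1 0 with hD
    by_cases h0 : A 0 0 = 0
    · have h1 : A 0 1 ≠ 0 := by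
        intro h2
        apply hA
        rw [hD, h0, h2]
        ring
      refine ⟨A 0 1 / D, A 1 1 / D, div_ne_zero h1 hA, ?_⟩
      rintro ⟨x, y⟩ ⟨n, m, hx, hy⟩
      refine ⟨-n, ?_⟩
      simp only at hx hy ⊢
      rw [hx, hy]
      push_cast
      field_simp
      rw [hD]
      ring
    · refine ⟨A 0 0 / D, A 1 0 / D, div_ne_zero h0 hA, ?_⟩
      rintro ⟨x, y⟩ ⟨n, m, hx, hy⟩
      refine ⟨m, ?_⟩
      simp only at hx hy ⊢
      rw [hx, hy]
      field_simp
      rw [hD]
      ring
  have : Fintype P := hP.fintype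
  set M := 2 * Fintype.card P + 1 with hM
  obtain ⟨v₁, hv₁, hz₁⟩ := exists_kernel (ι := P) fun k p =>
    stft g (phi g a b k) p.1.1 p.1.2
  obtain ⟨v₂, hv₂, hz₂⟩ := exists_kernel (ι := P) fun k p =>
    stft g (phi g a b (M + k)) p.1.1 p.1.2
  set F₁ : ℝ → ℂ := fun t => ∑ k : Fin M, (v₁ k : ℂ) * phi g a b k t with hF₁
  set F₂ : ℝ → ℂ := fun t => ∑ k : Fin M, (v₂ k : ℂ) * phi g a b (M + k) t with hF₂
  have m₁ : MemLp F₁ 2 volume := memLp_finsetSum _ fun k _ => (memLp_phi hg a b k).const_mul _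
  have m₂ : MemLp F₂ 2 volume :=
    memLp_finsetSum _ fun k _ => (memLp_phi hg a b (M + k)).const_mul _
  have s₁ : ∀ x ω, stft g F₁ x ω = ∑ k : Fin M, (v₁ k : ℂ) * stft g (phi g a b k) x ω := fun x ω =>
    stft_sum hg _ (fun k : Fin M => phi g a b k) (fun k => memLp_phi hg a b k) x ω
  have s₂ : ∀ x ω, stft g F₂ x ω =
      ∑ k : Fin M, (v₂ k : ℂ) * stft g (phi g a b (M + k)) x ω := fun x ω =>
    stft_sum hg _ (fun k : Fin M => phi g a b (M + k)) (fun k => memLp_phi hg a b (M + k)) x ω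
  obtain ⟨α, hα⟩ := huniq (fun t => F₁ t + Complex.I * F₂ t) (fun t => F₁ t + (-Complex.I) * F₂ t)
    (m₁.add (m₂.const_mul _)) (m₁.add (m₂.const_mul _)) (by
      rintro ⟨x, ω⟩ (hp | hp)
      · obtain ⟨n, hn⟩ := hab _ hp
        simp only at hn ⊢
        rw [stft_add hg m₁ m₂, stft_add hg m₁ m₂]
        set e : ℂ := Complex.exp ((Real.pi * x * ω : ℝ) * Complex.I) with he
        have hen : ‖e‖ = 1 := Complex.norm_exp_ofReal_mul_I _
        have r₁ : conj (e * stft g F₁ x ω) = e * stft g F₁ x ω := by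
          rw [s₁, Finset.mul_sum, map_sum]
          refine Finset.sum_congr rfl fun k _ => ?_
          rw [← mul_assoc, mul_comm e, mul_assoc, map_mul, Complex.conj_ofReal,
            stft_phi_real g a b k x ω n hn]
        have r₂ : conj (e * stft g F₂ x ω) = e * stft g F₂ x ω := by
          rw [s₂, Finset.mul_sum, map_sum]
          refine Finset.sum_congr rfl fun k _ => ?_
          rw [← mul_assoc, mul_comm e, mul_assoc, map_mul, Complex.conj_ofReal,
            stft_phi_real g a b (M + k) x ω n hn]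
        have q₁ : conj (e * (stft g F₁ x ω + Complex.I * stft g F₂ x ω)) =
            e * (stft g F₁ x ω + -Complex.I * stft g F₂ x ω) := by
          have : e * (stft g F₁ x ω + Complex.I * stft g F₂ x ω) =
              e * stft g F₁ x ω + Complex.I * (e * stft g F₂ x ω) := by ring
          rw [this, map_add, r₁, map_mul, r₂, Complex.conj_I]
          ring
        have q₂ := congrArg norm q₁
        rw [Complex.norm_conj, norm_mul, norm_mul, hen, one_mul, one_mul] at q₂
        exact q₂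
      · have z₁ : stft g F₁ x ω = 0 := by
          rw [s₁]
          exact hz₁ ⟨(x, ω), hp⟩
        have z₂ : stft g F₂ x ω = 0 := by
          rw [s₂]
          exact hz₂ ⟨(x, ω), hp⟩
        simp only
        rw [stft_add hg m₁ m₂, stft_add hg m₁ m₂, z₁, z₂]
        simp)
  -- the polynomials
  set ε : ℂ := Complex.exp (α * Complex.I) with hε
  set p₁ : ℂ[X] := ∑ k : Fin M, C (v₁ k : ℂ) * X ^ (k : ℕ) with hp₁
  set p₂ : ℂ[X] := ∑ k : Fin M, C (v₂ k : ℂ) * X ^ (M + k : ℕ) with hp₂
  set q : ℂ[X] := C (1 - ε) * p₁ + C (Complex.I * (1 + ε)) * p₂ with hq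
  have a₁ : aeval (T a b) p₁ (phi g a b 0) = F₁ := by
    rw [hp₁, map_sum, LinearMap.sum_apply]
    funext t
    rw [Finset.sum_apply, hF₁]
    refine Finset.sum_congr rfl fun k _ => ?_
    rw [map_mul, aeval_C, map_pow, aeval_X, Module.End.mul_apply, T_pow_phi]
    rfl
  have a₂ : aeval (T a b) p₂ (phi g a b 0) = F₂ := by
    rw [hp₂, map_sum, LinearMap.sum_apply]
    funext t
    rw [Finset.sum_apply, hF₂]
    refine Finset.sum_congr rfl fun k _ => ?_
    rw [map_mul, aeval_C, map_pow, aeval_X, Module.End.mul_apply, T_pow_phi]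
    rfl
  have hzero : aeval (T a b) q (phi g a b 0) =ᵐ[volume] 0 := by
    rw [hq, map_add, map_mul, map_mul, aeval_C, aeval_C, LinearMap.add_apply,
      Module.End.mul_apply, Module.End.mul_apply, a₁, a₂]
    filter_upwards [hα] with t ht
    show (1 - ε) * F₁ t + (Complex.I * (1 + ε)) * F₂ t = 0
    linear_combination ht
  have hphi0 : ¬ phi g a b 0 =ᵐ[volume] 0 := by
    intro h
    apply hg0
    have h1 : ∀ᵐ t : ℝ, phi g a b 0 (0 - t) = 0 :=
      (Measure.measurePreserving_sub_left volume (0 : ℝ)).quasiMeasurePreserving.ae h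
    filter_upwards [h1] with t ht
    unfold phi at ht
    have h2 := (mul_eq_zero.1 ht).resolve_left (Complex.exp_ne_zero _)
    simpa using h2
  have hq0 : q = 0 := by
    by_contra hne
    exact hphi0 (aeval_inj ha q.natDegree q le_rfl hne _ (memLp_phi hg a b 0) hzero)
  have c₁ : ∀ k : Fin M, q.coeff k = (1 - ε) * v₁ k := by
    intro k
    rw [hq, coeff_add, coeff_C_mul, coeff_C_mul, hp₁, hp₂, finsetSum_coeff, finsetSum_coeff]
    rw [Finset.sum_eq_single k, Finset.sum_eq_zero]
    · simp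
    · intro j _
      rw [coeff_C_mul, coeff_X_pow, if_neg, mul_zero]
      have := k.2
      omega
    · intro j _ hj
      rw [coeff_C_mul, coeff_X_pow, if_neg, mul_zero]
      intro h
      exact hj (Fin.ext h.symm)
    · intro h
      exact absurd (Finset.mem_univ k) h
  have c₂ : ∀ k : Fin M, q.coeff (M + k) = (Complex.I * (1 + ε)) * v₂ k := by
    intro k
    rw [hq, coeff_add, coeff_C_mul, coeff_C_mul, hp₁, hp₂, finsetSum_coeff, finsetSum_coeff]
    rw [Finset.sum_eq_zero, Finset.sum_eq_single k]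
    · simp
    · intro j _ hj
      rw [coeff_C_mul, coeff_X_pow, if_neg, mul_zero]
      intro h
      apply hj
      apply Fin.ext
      omega
    · intro h
      exact absurd (Finset.mem_univ k) h
    · intro j _
      rw [coeff_C_mul, coeff_X_pow, if_neg, mul_zero]
      have := j.2
      omega
  obtain ⟨k₁, hk₁⟩ := Function.ne_iff.1 hv₁
  obtain ⟨k₂, hk₂⟩ := Function.ne_iff.1 hv₂
  have d₁ := c₁ k₁
  have d₂ := c₂ k₂
  rw [hq0, coeff_zero] at d₁ d₂
  have e₁ : 1 - ε = 0 := by
    rcases mul_eq_zero.1 d₁.symm with h | h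
    · exact h
    · exact absurd (Complex.ofReal_eq_zero.1 h) hk₁
  have e₂ : 1 + ε = 0 := by
    rcases mul_eq_zero.1 d₂.symm with h | h
    · exact (mul_eq_zero.1 h).resolve_left Complex.I_ne_zero
    · exact absurd (Complex.ofReal_eq_zero.1 h) hk₂
  have : (2 : ℂ) = 0 := by linear_combination e₁ + e₂
  norm_num at this

end Pool.Agent.R228.GP
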